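import Pool.Agent.Work.MP_707689_an.F.Glue

/-!
Strong wave operators for two commuting selfadjoint `n`-tuples whose differences lie in Lorentz
ideals with weights `Φ j`: each `Φ j` is positive, increasing and grows by at most a factor `θ < 2`
under doubling. A set is null when it has covers by boxes with half sides `1 / Φ j k` and small sum
of `1 / k`; a vector is continuous when its spectral measure vanishes on the Borel null sets. One
operator `W` is the strong limit of `f(B)* f(A) x` for every continuous vector `x` of `A` along every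
family of Borel unimodular functions with `f(A) x` weakly null; it is isometric, intertwines the
spectral measures and maps onto the continuous vectors of `B`. The weights `k ^ (1 / s)` give the
ideal `C_s^-` and the null sets of the Hausdorff measure of dimension `s`; `n = s = 2` is the
hypothesis of the problem.
-/

open MeasureTheory Filter Topology Complex Pool.Agent.Work.MP_707689_an.N
open scoped InnerProductSpace

namespace Pool.Agent.Results.MP_707689_an.FractalWave

theorem result (H : Type) [NormedAddCommGroup H] [InnerProductSpace ℂ H] [CompleteSpace H]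
    (n : ℕ) (A B : Fin n → H →L[ℂ] H) (E E' : Set (Fin n → ℝ) → H →L[ℂ] H)
    (hE : IsSpec A E) (hE' : IsSpec B E')
    (Φ : Fin n → ℕ → ℝ) (θ : ℝ) (hθ : θ < 2) (hm : ∀ j, Monotone (Φ j)) (hp : ∀ j, 0 < Φ j 1)
    (hd : ∀ j k, 1 ≤ k → Φ j (2 * k) ≤ θ * Φ j k)
    (hK : ∀ j, Summable fun k : ℕ => sv (A j - B j) k * Φ j (k + 1) / ((k : ℝ) + 1)) :
    ∃ W : H →L[ℂ] H,
      (∀ (ι : Type) (l : Filter ι) [l.IsCountablyGenerated] (f : ι → (Fin n → ℝ) → ℂ)
        (S T : ι → H →L[ℂ] H), (∀ i, Measurable (f i)) → (∀ i y, ‖f i y‖ = 1) →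
        (∀ i, IsInt E (f i) (S i)) → (∀ i, IsInt E' (f i) (T i)) →
        ∀ x, Cont Φ E x → (∀ y, Tendsto (fun i => ⟪y, S i x⟫_ℂ) l (𝓝 0)) →
          Tendsto (fun i => star (T i) (S i x)) l (𝓝 (W x))) ∧
      (∀ x, Cont Φ E x → ‖W x‖ = ‖x‖ ∧ (∀ j, W (A j x) = B j (W x)) ∧
        ∀ S, MeasurableSet S → W (E S x) = E' S (W x)) ∧
      W '' {x | Cont Φ E x} = {y | Cont Φ E' y} :=
  G.F.wave2 hθ hm hp hd hK hE hE'

end Pool.Agent.Results.MP_707689_an.FractalWave
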